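import Pool.Agent.H27.RCS.Defs
import Pool.Agent.H27.RCS.Main

/-!
# MP_c00d13_an: the radius of comparison is at most half the mean dimension

Let `h` be a homeomorphism of a compact metrizable space `X` such that `(X, h)` has a factor
`(Y, k)` with `Y` infinite and `k` minimal. Then `rc(C*(ℤ, X, h)) ≤ mdim(h) / 2`.

All definitions are in `Pool.Agent.H27.RCS.Defs`; the proof is in `Pool.Agent.H27.RCS.Main`.
-/

set_option autoImplicit false

open Pool.Agent.H27.RCS

namespace Pool.Agent.Results.MP_c00d13_an.HalfMeanDimension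

theorem result (X : Type) [TopologicalSpace X] [CompactSpace X] [TopologicalSpace.MetrizableSpace X]
    (h : X ≃ₜ X)
    (Y : Type) [TopologicalSpace Y] [CompactSpace Y] [TopologicalSpace.MetrizableSpace Y]
    [Infinite Y] (k : Y ≃ₜ Y) (hk : IsMinimalHomeo k)
    (g : X → Y) (hg : Continuous g) (hgs : Function.Surjective g) (hgh : ∀ x, g (h x) = k (g x)) :
    (∃ (A : Type) (_ : CStarAlgebra A), IsCrossedProduct h A) ∧
      ∀ (A : Type) [CStarAlgebra A], IsCrossedProduct h A → rc A ≤ mdim h / 2 :=
  main X h Y k hk g hg hgs hgh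

end Pool.Agent.Results.MP_c00d13_an.HalfMeanDimension
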